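import Pool.Agent.Q329.CD.Main

/-!
# Recognising comparability digraphs is NP-hard

The definitions used in the statement are in `Pool/Agent/Q329/CD/Defs.lean`:

* `IsComparabilityOrdering A ρ`: the distinct positions `ρ x` of the vertices `x` give a
  comparability ordering of the digraph with arcs `A x y = true`; `IsComparabilityDigraph A`;
* `mat A`: the adjacency matrix; `Recog m`: `m` is the adjacency matrix of a comparability digraph.

`InNP`, `InP`, `NPHardP` (from `Pool/Agent/NPC`) are the classes NP and P of languages, and hardness
for NP under polynomial-time many-one reductions.

Proof. An ordering is a comparability ordering exactly if for every directed path `abc` without the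
arc `ac` the vertex `b` is not between `a` and `c`. A hub with a private in-neighbour and a private
out-neighbour is therefore before all its neighbours or after all of them. There are two opposite hubs
for every variable and one more hub. A clause has a cycle of four vertices, with pairwise arcs such
that consecutive pairs are linked to the hubs of its three literals and the additional hub by
auxiliary vertices; the order of each pair is the one given by the hub, and the four hubs are not all
equal exactly if these four orders do not make a directed cycle.
-/

set_option autoImplicit false

namespace Pool.Agent.Results.MP_8b4e11_lc.Recognition

open Pool.Agent.Q329.CD Pool.Agent.NPC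

/-- Recognising comparability digraphs is NP-hard; if a polynomial-time algorithm decides for all
digraphs (without loops) whether they are comparability digraphs, then P = NP. -/
theorem result : NPHardP Recog ∧
    ((∃ D : List Bool → List Bool, PolyTime D ∧
      ∀ (n : ℕ) (A : Fin n → Fin n → Bool), (∀ x, A x x = false) →
        (D (bits (mat A)) = [true] ↔ IsComparabilityDigraph A)) →
      ∀ L : Set (List Bool), InNP L → InP L) :=
  ⟨hard.toHardI.toNPHardP, fun ⟨_, hD, h⟩ L hL => collapse hD h L hL⟩

end Pool.Agent.Results.MP_8b4e11_lc.Recognition
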